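import Mathlib

/-!
# Back and forth for coloured graphs with the extension property
-/

set_option autoImplicit false

namespace Pool.Agent.R732.Dist

variable {V I : Type} (R : V → V → Prop) (k : V → I)

/-- The coloured extension property. -/
def CExt : Prop :=
  ∀ S U : Finset V, Disjoint S U → ∀ m : V,
    ∃ v, v ∉ S ∧ v ∉ U ∧ k v = k m ∧ (∀ s ∈ S, R v s) ∧ ∀ u ∈ U, ¬ R v u

/-- Finite partial isomorphisms. -/
def IsPI (p : Finset (V × V)) : Prop :=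
  ∀ a ∈ p, ∀ b ∈ p, (a.1 = b.1 ↔ a.2 = b.2) ∧ (R a.1 b.1 ↔ R a.2 b.2) ∧ k a.1 = k a.2

/-- The type of finite partial isomorphisms. -/
abbrev PI : Type := {p : Finset (V × V) // IsPI R k p}

variable {R k}

theorem isPI_swap [DecidableEq V] {p : Finset (V × V)} (h : IsPI R k p) :
    IsPI R k (p.map (Equiv.prodComm V V).toEmbedding) := by
  intro a ha b hb
  simp only [Finset.mem_map, Equiv.coe_toEmbedding, Equiv.prodComm_apply] at ha hb
  obtain ⟨a', ha', rfl⟩ := ha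
  obtain ⟨b', hb', rfl⟩ := hb
  obtain ⟨h1, h2, h3⟩ := h a' ha' b' hb'
  exact ⟨h1.symm, h2.symm, h3.symm⟩

theorem extend (hs : ∀ a b, R a b → R b a) (hi : ∀ a, ¬ R a a) (hE : CExt R k)
    {p : Finset (V × V)} (hp : IsPI R k p) (x : V) :
    ∃ q : Finset (V × V), IsPI R k q ∧ p ⊆ q ∧ ∃ y, (x, y) ∈ q := by
  classical
  by_cases hx : ∃ y, (x, y) ∈ p
  · exact ⟨p, hp, subset_rfl, hx⟩
  · push Not at hx
    let S : Finset V := (p.filter fun a => R x a.1).image Prod.snd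
    let U : Finset V := (p.filter fun a => ¬ R x a.1).image Prod.snd
    have hd : Disjoint S U := by
      rw [Finset.disjoint_left]
      intro v hv hv'
      simp only [S, U, Finset.mem_image, Finset.mem_filter] at hv hv'
      obtain ⟨a, ⟨ha, ha2⟩, rfl⟩ := hv
      obtain ⟨b, ⟨hb, hb2⟩, hab⟩ := hv'
      have := ((hp a ha b hb).1).2 hab.symm
      rw [this] at ha2
      exact hb2 ha2
    obtain ⟨y, h1, h2, h3, h4, h5⟩ := hE S U hd x
    have hnot : ∀ a ∈ p, a.2 ≠ y := by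
      intro a ha hay
      by_cases hr : R x a.1
      · exact h1 (Finset.mem_image.2 ⟨a, Finset.mem_filter.2 ⟨ha, hr⟩, hay⟩)
      · exact h2 (Finset.mem_image.2 ⟨a, Finset.mem_filter.2 ⟨ha, hr⟩, hay⟩)
    have hnot' : ∀ a ∈ p, a.1 ≠ x := by
      rintro ⟨a1, a2⟩ ha hax
      simp only at hax
      subst hax
      exact hx _ ha
    have hR : ∀ a ∈ p, (R x a.1 ↔ R y a.2) := by
      intro a ha
      by_cases hr : R x a.1
      · exact ⟨fun _ => h4 _ (Finset.mem_image.2 ⟨a, Finset.mem_filter.2 ⟨ha, hr⟩, rfl⟩),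
          fun _ => hr⟩
      · exact ⟨fun h => absurd h hr, fun h => absurd h
          (h5 _ (Finset.mem_image.2 ⟨a, Finset.mem_filter.2 ⟨ha, hr⟩, rfl⟩))⟩
    refine ⟨insert (x, y) p, ?_, Finset.subset_insert _ _, y, Finset.mem_insert_self _ _⟩
    intro a ha b hb
    rw [Finset.mem_insert] at ha hb
    rcases ha with rfl | ha <;> rcases hb with rfl | hb
    · exact ⟨by simp, ⟨fun h => absurd h (hi _), fun h => absurd h (hi _)⟩, h3.symm⟩
    · exact ⟨⟨fun h => absurd h.symm (hnot' b hb), fun h => absurd h.symm (hnot b hb)⟩,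
        hR b hb, h3.symm⟩
    · refine ⟨⟨fun h => absurd h (hnot' a ha), fun h => absurd h (hnot a ha)⟩, ?_,
        (hp a ha a ha).2.2⟩
      exact ⟨fun h => hs _ _ ((hR a ha).1 (hs _ _ h)), fun h => hs _ _ ((hR a ha).2 (hs _ _ h))⟩
    · exact hp a ha b hb

/-- Any two vertices of the same colour are exchanged by a colour preserving automorphism. -/
theorem back_forth [Countable V] (hs : ∀ a b, R a b → R b a) (hi : ∀ a, ¬ R a a)
    (hE : CExt R k) {a b : V} (hab : k a = k b) :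
    ∃ f : V ≃ V, f a = b ∧ (∀ x y, R (f x) (f y) ↔ R x y) ∧ ∀ x, k (f x) = k x := by
  classical
  haveI : Encodable V := Encodable.ofCountable V
  let p0 : PI R k := ⟨{(a, b)}, by
    intro x hx y hy
    rw [Finset.mem_singleton] at hx hy
    subst hx; subst hy
    exact ⟨by simp, ⟨fun h => absurd h (hi _), fun h => absurd h (hi _)⟩, hab⟩⟩
  have cof1 : ∀ x : V, IsCofinal {q : PI R k | ∃ y, (x, y) ∈ q.1} := by
    intro x p
    obtain ⟨q, hq, hpq, hy⟩ := extend hs hi hE p.2 x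
    exact ⟨⟨q, hq⟩, hy, hpq⟩
  have cof2 : ∀ y : V, IsCofinal {q : PI R k | ∃ x, (x, y) ∈ q.1} := by
    intro y p
    obtain ⟨q, hq, hpq, x, hx⟩ := extend hs hi hE (isPI_swap p.2) y
    refine ⟨⟨q.map (Equiv.prodComm V V).toEmbedding, isPI_swap hq⟩, ⟨x, ?_⟩, ?_⟩
    · simp only [Finset.mem_map, Equiv.coe_toEmbedding, Equiv.prodComm_apply]
      exact ⟨(y, x), hx, rfl⟩
    · intro c hc
      simp only [Finset.mem_map, Equiv.coe_toEmbedding, Equiv.prodComm_apply]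
      refine ⟨c.swap, hpq ?_, by simp⟩
      simp only [Finset.mem_map, Equiv.coe_toEmbedding, Equiv.prodComm_apply]
      exact ⟨c, hc, rfl⟩
  let D : V ⊕ V → Order.Cofinal (PI R k) := fun s => Sum.elim
    (fun x => ⟨{q : PI R k | ∃ y, (x, y) ∈ q.1}, cof1 x⟩)
    (fun y => ⟨{q : PI R k | ∃ x, (x, y) ∈ q.1}, cof2 y⟩) s
  let J := Order.idealOfCofinals p0 D
  have hdir : ∀ p ∈ J, ∀ q ∈ J, ∃ r ∈ J, p.1 ⊆ r.1 ∧ q.1 ⊆ r.1 := by
    intro p hp q hq
    obtain ⟨r, hr, h1, h2⟩ := J.directed p hp q hq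
    exact ⟨r, hr, h1, h2⟩
  have hdom : ∀ x, ∃ y, ∃ p ∈ J, (x, y) ∈ p.1 := by
    intro x
    obtain ⟨p, ⟨y, hy⟩, hp⟩ := Order.cofinal_meets_idealOfCofinals p0 D (Sum.inl x)
    exact ⟨y, p, hp, hy⟩
  have hran : ∀ y, ∃ x, ∃ p ∈ J, (x, y) ∈ p.1 := by
    intro y
    obtain ⟨p, ⟨x, hx⟩, hp⟩ := Order.cofinal_meets_idealOfCofinals p0 D (Sum.inr y)
    exact ⟨x, p, hp, hx⟩
  choose f pf hpf hf using hdom
  choose g pg hpg hg using hran
  have key : ∀ x y x' y', (∃ p ∈ J, (x, y) ∈ p.1) → (∃ p ∈ J, (x', y') ∈ p.1) →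
      (x = x' ↔ y = y') ∧ (R x x' ↔ R y y') ∧ k x = k y := by
    rintro x y x' y' ⟨p, hp, h⟩ ⟨q, hq, h'⟩
    obtain ⟨r, hr, h1, h2⟩ := hdir p hp q hq
    exact r.2 _ (h1 h) _ (h2 h')
  have hfg : ∀ y, f (g y) = y := fun y =>
    ((key (g y) (f (g y)) (g y) y ⟨_, hpf _, hf _⟩ ⟨_, hpg _, hg _⟩).1).1 rfl
  have hgf : ∀ x, g (f x) = x := fun x =>
    ((key (g (f x)) (f x) x (f x) ⟨_, hpg _, hg _⟩ ⟨_, hpf _, hf _⟩).1).2 rfl
  refine ⟨⟨f, g, hgf, hfg⟩, ?_, ?_, ?_⟩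
  · refine ((key a (f a) a b ⟨_, hpf _, hf _⟩ ⟨p0, Order.mem_idealOfCofinals p0 D, ?_⟩).1).1 rfl
    exact Finset.mem_singleton_self _
  · intro x y
    exact (key x (f x) y (f y) ⟨_, hpf _, hf _⟩ ⟨_, hpf _, hf _⟩).2.1.symm
  · intro x
    exact (key x (f x) x (f x) ⟨_, hpf _, hf _⟩ ⟨_, hpf _, hf _⟩).2.2.symm

end Pool.Agent.R732.Dist
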