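import Mathlib

/-!
# Distinguishing numbers and the generic graph on the integers
-/

set_option autoImplicit false

open Set Filter Topology

namespace Pool.Agent.R732.Dist

/-- A colouring `c` of the vertices of `G` is distinguishing if the identity is the only
automorphism of `G` that preserves every colour. -/
def Distinguishing {X I : Type} (G : SimpleGraph X) (c : X → I) : Prop :=
  ∀ φ : G ≃g G, (∀ x, c (φ x) = c x) → ∀ x, φ x = x

/-- The distinguishing number of `G`: the least cardinality of a set `I` for which there is a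
distinguishing map `X → I`. -/
noncomputable def distNumber {X : Type} (G : SimpleGraph X) : Cardinal.{0} :=
  sInf {κ | ∃ (I : Type) (c : X → I), Distinguishing G c ∧ Cardinal.mk I = κ}

/-- The Borel distinguishing number of `G`: the least cardinality of a standard Borel space `I`
for which there is a Borel distinguishing map `X → I`. -/
noncomputable def borelDistNumber {X : Type} [MeasurableSpace X] (G : SimpleGraph X) :
    Cardinal.{0} :=
  sInf {κ | ∃ (I : Type) (_ : MeasurableSpace I) (_ : StandardBorelSpace I) (c : X → I),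
    Measurable c ∧ Distinguishing G c ∧ Cardinal.mk I = κ}

/-! ### The space of graphs on the integers -/

/-- Codes for graphs on `ℤ`: the bit at `(i, d)` decides the edge `{i, i + d + 1}`. -/
abbrev Om : Type := ℤ × ℕ → Bool

/-- The graph on `ℤ` coded by `x`. -/
def R (x : Om) (i j : ℤ) : Prop :=
  (i < j ∧ x (i, (j - i - 1).toNat) = true) ∨ (j < i ∧ x (j, (i - j - 1).toNat) = true)

/-- The translation action of `ℤ`. -/
def sh (n : ℤ) (x : Om) : Om := fun p => x (p.1 + n, p.2)

theorem R_symm {x : Om} {i j : ℤ} (h : R x i j) : R x j i := Or.symm h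

theorem R_comm {x : Om} {i j : ℤ} : R x i j ↔ R x j i := ⟨R_symm, R_symm⟩

theorem R_irrefl (x : Om) (i : ℤ) : ¬ R x i i := by
  rintro (h | h) <;> exact lt_irrefl _ h.1

theorem R_sh (n : ℤ) (x : Om) (i j : ℤ) : R (sh n x) i j ↔ R x (i + n) (j + n) := by
  unfold R sh
  have h1 : (j + n - (i + n) - 1) = j - i - 1 := by ring
  have h2 : (i + n - (j + n) - 1) = i - j - 1 := by ring
  simp only [h1, h2, add_lt_add_iff_right]

theorem sh_zero (x : Om) : sh 0 x = x := by
  funext p; simp [sh]

theorem sh_sh (m n : ℤ) (x : Om) : sh m (sh n x) = sh (m + n) x := by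
  funext p; simp [sh, add_assoc]

theorem continuous_sh (n : ℤ) : Continuous (sh n) :=
  continuous_pi fun _ => continuous_apply _

theorem isOpenMap_sh (n : ℤ) : IsOpenMap (sh n) := by
  have h : Function.LeftInverse (sh (-n)) (sh n) := fun x => by rw [sh_sh]; simp [sh_zero]
  have h' : Function.RightInverse (sh (-n)) (sh n) := fun x => by rw [sh_sh]; simp [sh_zero]
  exact IsOpenMap.of_inverse (continuous_sh (-n)) h' h

theorem measurable_sh (n : ℤ) : Measurable (sh n) :=
  measurable_pi_lambda _ fun _ => measurable_pi_apply _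

theorem isClopen_R (i j : ℤ) : IsClopen {x : Om | R x i j} := by
  have h : ∀ p : ℤ × ℕ, IsClopen {x : Om | x p = true} := fun p =>
    (isClopen_discrete {true}).preimage (continuous_apply p)
  have hc : ∀ q : Prop, IsClopen {_x : Om | q} := fun q => by
    by_cases hq : q <;> simp [hq, isClopen_univ, isClopen_empty]
  exact ((hc _).inter (h _)).union ((hc _).inter (h _))

theorem measurable_R (i j : ℤ) : MeasurableSet {x : Om | R x i j} :=
  (isClopen_R i j).isOpen.measurableSet

/-- The extension property of the graph coded by `x`. -/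
def Ext (x : Om) : Prop :=
  ∀ S U : Finset ℤ, Disjoint S U → ∃ v, v ∉ S ∧ v ∉ U ∧ (∀ s ∈ S, R x v s) ∧ ∀ u ∈ U, ¬ R x v u

/-- The translation action is free at `x`. -/
def Free (x : Om) : Prop := ∀ n : ℤ, n ≠ 0 → sh n x ≠ x

theorem measurable_Ext : MeasurableSet {x : Om | Ext x} := by
  have : {x : Om | Ext x} = ⋂ S : Finset ℤ, ⋂ U : Finset ℤ, {_x : Om | Disjoint S U}ᶜ ∪
      ⋃ v : ℤ, ({_x : Om | v ∉ S ∧ v ∉ U} ∩ ((⋂ s : S, {x : Om | R x v s.1}) ∩
        ⋂ u : U, {x : Om | R x v u.1}ᶜ)) := by
    ext x
    simp only [Ext, mem_ofPred_eq, mem_iInter, mem_iUnion, mem_inter_iff, mem_union, mem_compl_iff,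
      Subtype.forall, imp_iff_not_or, and_assoc]
  rw [this]
  refine MeasurableSet.iInter fun S => MeasurableSet.iInter fun U =>
    (MeasurableSet.const _).compl.union (MeasurableSet.iUnion fun v => ?_)
  refine (MeasurableSet.const _).inter (MeasurableSet.inter ?_ ?_)
  · exact MeasurableSet.iInter fun s => measurable_R _ _
  · exact MeasurableSet.iInter fun u => (measurable_R _ _).compl

theorem measurable_Free : MeasurableSet {x : Om | Free x} := by
  have : {x : Om | Free x} = ⋂ n : ℤ, {_x : Om | n ≠ 0}ᶜ ∪ {x : Om | sh n x = x}ᶜ := by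
    ext x
    simp only [Free, mem_ofPred_eq, mem_iInter, mem_union, mem_compl_iff, imp_iff_not_or]
  rw [this]
  exact MeasurableSet.iInter fun n => (MeasurableSet.const _).compl.union
    (measurableSet_eq_fun (measurable_sh n) measurable_id).compl

theorem Ext_sh (n : ℤ) {x : Om} (h : Ext x) : Ext (sh n x) := by
  classical
  intro S U hd
  obtain ⟨v, h1, h2, h3, h4⟩ := h (S.map (Equiv.addRight n).toEmbedding)
    (U.map (Equiv.addRight n).toEmbedding) ((Finset.disjoint_map _).2 hd)
  simp only [Finset.mem_map, Equiv.coe_toEmbedding, Equiv.coe_addRight, not_exists, not_and,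
    forall_exists_index, and_imp, forall_apply_eq_imp_iff₂] at h1 h2 h3 h4
  refine ⟨v - n, fun hs => h1 _ hs (by ring), fun hu => h2 _ hu (by ring), fun s hs => ?_,
    fun u hu => ?_⟩
  · rw [R_sh, sub_add_cancel]; exact h3 s hs
  · rw [R_sh, sub_add_cancel]; exact h4 u hu

theorem Free_sh (n : ℤ) {x : Om} (h : Free x) : Free (sh n x) := by
  intro m hm heq
  apply h m hm
  have : sh (-n) (sh m (sh n x)) = sh (-n) (sh n x) := by rw [heq]
  rw [sh_sh, sh_sh, sh_sh] at this
  have e1 : -n + m + n = m := by ring
  have e2 : -n + n = (0 : ℤ) := by ring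
  rw [e2, sh_zero, e1] at this
  exact this

/-- The vertex set: codes of free graphs with the extension property. -/
abbrev Y : Type := {x : Om // Free x ∧ Ext x}

theorem measurable_Y : MeasurableSet {x : Om | Free x ∧ Ext x} :=
  measurable_Free.inter measurable_Ext

instance : StandardBorelSpace Y := measurable_Y.standardBorel

/-- The action on the vertex set. -/
def act (n : ℤ) (y : Y) : Y := ⟨sh n y.1, Free_sh n y.2.1, Ext_sh n y.2.2⟩

theorem act_act (m n : ℤ) (y : Y) : act m (act n y) = act (m + n) y := Subtype.ext (sh_sh m n y.1)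

theorem act_zero (y : Y) : act 0 y = y := Subtype.ext (sh_zero y.1)

theorem act_inj {y : Y} {m n : ℤ} (h : act m y = act n y) : m = n := by
  by_contra hne
  apply y.2.1 (-n + m) (by omega)
  have h1 : act (-n) (act m y) = act (-n) (act n y) := by rw [h]
  rw [act_act, act_act] at h1
  have e2 : -n + n = (0 : ℤ) := by ring
  rw [e2, act_zero] at h1
  exact congrArg Subtype.val h1

/-- The graph: two vertices are adjacent if they are in one orbit and the graph on the orbit
joins them. -/
def G : SimpleGraph Y where
  Adj y z := ∃ n : ℤ, z = act n y ∧ R y.1 0 n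
  symm := ⟨by
    rintro y z ⟨n, rfl, h⟩
    refine ⟨-n, ?_, ?_⟩
    · rw [act_act]
      have e : -n + n = (0 : ℤ) := by ring
      rw [e, act_zero]
    · show R (sh n y.1) 0 (-n)
      rw [R_sh]
      have e : -n + n = (0 : ℤ) := by ring
      rw [e, zero_add]
      exact R_symm h⟩
  loopless := ⟨by
    rintro y ⟨n, h, h2⟩
    have h3 : act 0 y = act n y := by rw [act_zero]; exact h
    have h4 := act_inj h3
    subst h4
    exact R_irrefl _ _ h2⟩

theorem adj_act (y : Y) (m n : ℤ) : G.Adj (act m y) (act n y) ↔ R y.1 m n := by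
  constructor
  · rintro ⟨k, hk, h⟩
    rw [act_act] at hk
    have := act_inj hk
    have h' : R (sh m y.1) 0 k := h
    rw [R_sh, zero_add] at h'
    rw [this]
    exact h'
  · intro h
    refine ⟨n - m, ?_, ?_⟩
    · rw [act_act, sub_add_cancel]
    · show R (sh m y.1) 0 (n - m)
      rw [R_sh, zero_add, sub_add_cancel]
      exact h

theorem measurable_adj : MeasurableSet {p : Y × Y | G.Adj p.1 p.2} := by
  have : {p : Y × Y | G.Adj p.1 p.2} =
      ⋃ n : ℤ, ({p : Y × Y | p.2.1 = sh n p.1.1} ∩ {p : Y × Y | R p.1.1 0 n}) := by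
    ext p
    simp only [G, mem_ofPred_eq, mem_iUnion, mem_inter_iff]
    refine exists_congr fun n => and_congr ?_ Iff.rfl
    constructor
    · intro h; rw [h]; rfl
    · intro h; exact Subtype.ext h
  rw [this]
  refine MeasurableSet.iUnion fun n => MeasurableSet.inter ?_ ?_
  · exact measurableSet_eq_fun (measurable_subtype_coe.comp measurable_snd)
      ((measurable_sh n).comp (measurable_subtype_coe.comp measurable_fst))
  · exact (measurable_subtype_coe.comp measurable_fst) (measurable_R 0 n)

end Pool.Agent.R732.Dist
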