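import Pool.Agent.R732.Dist.Defs
import Pool.Agent.R732.Dist.BackForth

/-!
# Genericity: every countable Borel colouring is homogeneous on some orbit
-/

set_option autoImplicit false

open Set Filter Topology

namespace Pool.Agent.R732.Dist

/-- The dense open condition used for the extension property inside the open set `O`. -/
def W (O : Set Om) (S U : Finset ℤ) : Set Om :=
  {x | ∃ v, v ∉ S ∧ v ∉ U ∧ sh v x ∈ O ∧ (∀ s ∈ S, R x v s) ∧ ∀ u ∈ U, ¬ R x v u}

theorem isOpen_W {O : Set Om} (hO : IsOpen O) (S U : Finset ℤ) : IsOpen (W O S U) := by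
  have : W O S U = ⋃ v : ℤ, ({_x : Om | v ∉ S ∧ v ∉ U} ∩ ((sh v ⁻¹' O) ∩
      ((⋂ s ∈ S, {x : Om | R x v s}) ∩ ⋂ u ∈ U, {x : Om | R x v u}ᶜ))) := by
    ext x
    simp only [W, mem_ofPred_eq, mem_iUnion, mem_inter_iff, mem_iInter, mem_preimage,
      mem_compl_iff, and_assoc]
  rw [this]
  refine isOpen_iUnion fun v => IsOpen.inter ?_ (IsOpen.inter (hO.preimage (continuous_sh v))
    (IsOpen.inter ?_ ?_))
  · by_cases h : v ∉ S ∧ v ∉ U <;> simp [h]
  · exact isOpen_biInter_finset fun s _ => (isClopen_R v s).isOpen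
  · exact isOpen_biInter_finset fun u _ => (isClopen_R v u).compl.isOpen

/-- Basic neighbourhoods in the space of graphs. -/
theorem basic_nhd {V : Set Om} (hV : IsOpen V) {x : Om} (hx : x ∈ V) :
    ∃ D : Finset (ℤ × ℕ), ∀ x' : Om, (∀ p ∈ D, x' p = x p) → x' ∈ V := by
  obtain ⟨D, u, h1, h2⟩ := isOpen_pi_iff.1 hV x hx
  refine ⟨D, fun x' hx' => h2 ?_⟩
  intro p hp
  rw [hx' p hp]
  exact (h1 p hp).2

theorem dense_W {O : Set Om} (hO : IsOpen O) (hne : O.Nonempty) {S U : Finset ℤ}
    (hd : Disjoint S U) : Dense (W O S U) := by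
  classical
  rw [dense_iff_inter_open]
  rintro V hV ⟨x0, hx0⟩
  obtain ⟨z0, hz0⟩ := hne
  obtain ⟨D, hD⟩ := basic_nhd hV hx0
  obtain ⟨D', hD'⟩ := basic_nhd hO hz0
  let B : ℤ := (∑ p ∈ D, (|p.1| + (p.2 : ℤ))) + (∑ p ∈ D', |p.1|) + ∑ s ∈ S ∪ U, |s|
  have n1 : 0 ≤ ∑ p ∈ D, (|p.1| + (p.2 : ℤ)) := Finset.sum_nonneg fun p _ => by positivity
  have n2 : 0 ≤ ∑ p ∈ D', |p.1| := Finset.sum_nonneg fun p _ => abs_nonneg _
  have n3 : 0 ≤ ∑ s ∈ S ∪ U, |s| := Finset.sum_nonneg fun p _ => abs_nonneg _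
  have hBD : ∀ p ∈ D, |p.1| ≤ B ∧ (p.2 : ℤ) ≤ B := by
    intro p hp
    have h := Finset.single_le_sum (f := fun p : ℤ × ℕ => |p.1| + (p.2 : ℤ))
      (fun p _ => by positivity) hp
    have h2 := abs_nonneg p.1
    constructor <;> simp only [B] <;> omega
  have hBD' : ∀ p ∈ D', |p.1| ≤ B := by
    intro p hp
    have h := Finset.single_le_sum (f := fun p : ℤ × ℕ => |p.1|)
      (fun p _ => abs_nonneg _) hp
    simp only [B]; omega
  have hBS : ∀ s ∈ S ∪ U, |s| ≤ B := by
    intro s hs
    have h := Finset.single_le_sum (f := fun s : ℤ => |s|) (fun p _ => abs_nonneg _) hs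
    simp only [B]; omega
  have hB0 : 0 ≤ B := by simp only [B]; omega
  clear_value B
  let n : ℤ := 4 * B + 4
  let x' : Om := fun p => if p ∈ D then x0 p else if (p.1 - n, p.2) ∈ D' then z0 (p.1 - n, p.2)
    else decide (p.1 ∈ S)
  have hxV : x' ∈ V := hD x' fun p hp => by simp only [x', if_pos hp]
  have hxO : sh n x' ∈ O := by
    apply hD'
    rintro ⟨j, d⟩ hp
    have h1 : ((j + n, d) : ℤ × ℕ) ∉ D := by
      intro h
      have h2 := (hBD _ h).1
      have h3 := hBD' _ hp
      simp only [n] at h2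
      rw [abs_le] at h2 h3
      simp only at h3
      omega
    show x' (j + n, d) = z0 (j, d)
    have h2 : (((j + n, d) : ℤ × ℕ).1 - n, ((j + n, d) : ℤ × ℕ).2) = (j, d) := by
      simp
    simp only [x', if_neg h1, h2, if_pos hp]
  have hval : ∀ s ∈ S ∪ U, x' (s, (n - s - 1).toNat) = decide (s ∈ S) := by
    intro s hs
    have hsB := hBS s hs
    rw [abs_le] at hsB
    have h1 : ((s, (n - s - 1).toNat) : ℤ × ℕ) ∉ D := by
      intro h
      have h2 := (hBD _ h).2
      simp only [n] at h2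
      omega
    have h2 : ((s - n, (n - s - 1).toNat) : ℤ × ℕ) ∉ D' := by
      intro h
      have h3 := hBD' _ h
      rw [abs_le] at h3
      simp only [n] at h3
      omega
    simp only [x', if_neg h1, if_neg h2]
  have hnlt : ∀ s ∈ S ∪ U, s < n := by
    intro s hs
    have hsB := hBS s hs
    rw [abs_le] at hsB
    simp only [n]
    omega
  refine ⟨x', hxV, n, fun h => lt_irrefl _ (hnlt n (Finset.mem_union_left _ h)),
    fun h => lt_irrefl _ (hnlt n (Finset.mem_union_right _ h)), hxO, ?_, ?_⟩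
  · intro s hs
    have hs' := Finset.mem_union_left U hs
    refine Or.inr ⟨hnlt s hs', ?_⟩
    rw [hval s hs']
    exact decide_eq_true hs
  · intro u hu
    have hu' := Finset.mem_union_right S hu
    rintro (⟨h1, _⟩ | ⟨_, h2⟩)
    · exact lt_asymm h1 (hnlt u hu')
    · rw [hval u hu'] at h2
      exact Finset.disjoint_left.1 hd (of_decide_eq_true h2) hu

theorem isOpen_ne (n : ℤ) : IsOpen {x : Om | sh n x ≠ x} :=
  isOpen_ne_fun (continuous_sh n) continuous_id

theorem dense_ne {n : ℤ} (hn : n ≠ 0) : Dense {x : Om | sh n x ≠ x} := by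
  classical
  rw [dense_iff_inter_open]
  rintro V hV ⟨x0, hx0⟩
  obtain ⟨D, hD⟩ := basic_nhd hV hx0
  let B : ℤ := (∑ p ∈ D, |p.1|)
  have hBD : ∀ p ∈ D, |p.1| ≤ B := by
    intro p hp
    exact Finset.single_le_sum (f := fun p : ℤ × ℕ => |p.1|) (fun p _ => abs_nonneg _) hp
  have hB0 : 0 ≤ B := Finset.sum_nonneg fun p _ => abs_nonneg _
  clear_value B
  let i : ℤ := B + 1 + |n|
  have hi : ((i, 0) : ℤ × ℕ) ∉ D := by
    intro h
    have h1 := hBD _ h
    have h2 := abs_nonneg n
    simp only [i, abs_le] at h1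
    omega
  have hi2 : ((i + n, 0) : ℤ × ℕ) ∉ D := by
    intro h
    have h1 := hBD _ h
    have h2 := neg_abs_le n
    simp only [i, abs_le] at h1
    omega
  let x' : Om := fun p => if p ∈ D then x0 p else decide (p = (i, 0))
  refine ⟨x', hD x' fun p hp => by simp only [x', if_pos hp], ?_⟩
  intro heq
  have h1 := congrFun heq (i, 0)
  have h2 : x' (i + n, 0) = x' (i, 0) := h1
  have h3 : ((i + n, 0) : ℤ × ℕ) ≠ (i, 0) := by
    intro h
    have := congrArg Prod.fst h
    simp only at this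
    omega
  simp only [x', if_neg hi, if_neg hi2, decide_true, decide_eq_true_eq] at h2
  exact h3 h2

/-- Every Borel colouring with countably many colours is homogeneous on some orbit. -/
theorem generic {I : Type} [Countable I] [MeasurableSpace I] [MeasurableSingletonClass I]
    {c : Y → I} (hc : Measurable c) :
    ∃ x : Y, CExt (R x.1) (fun n : ℤ => c (act n x)) := by
  classical
  let A : I → Set Om := fun i => Subtype.val '' (c ⁻¹' {i})
  have hA : ∀ i, MeasurableSet (A i) := fun i =>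
    MeasurableSet.subtype_image measurable_Y (hc (measurableSet_singleton i))
  have hO : ∀ i, ∃ u : Set Om, IsOpen u ∧ A i =ᶠ[residual Om] u := fun i =>
    (hA i).residualEq_isOpen
  choose O hO1 hO2 using hO
  have e1 : ∀ᶠ x in residual Om, ∀ i : I, ∀ n : ℤ, (sh n x ∈ A i ↔ sh n x ∈ O i) := by
    rw [eventually_countable_forall]
    intro i
    rw [eventually_countable_forall]
    intro n
    have h : ∀ᶠ x in residual Om, (x ∈ A i ↔ x ∈ O i) := by
      filter_upwards [hO2 i] with x hx
      exact iff_of_eq hx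
    exact (tendsto_residual_of_isOpenMap (continuous_sh n) (isOpenMap_sh n)).eventually h
  have e2 : ∀ᶠ x in residual Om, Free x := by
    have : ∀ᶠ x in residual Om, ∀ n : ℤ, n ≠ 0 → sh n x ≠ x := by
      rw [eventually_countable_forall]
      intro n
      by_cases hn : n = 0
      · exact Eventually.of_forall fun x h => absurd hn h
      · filter_upwards [residual_of_dense_open (isOpen_ne n) (dense_ne hn)] with x hx _
        exact hx
    exact this
  have e3 : ∀ᶠ x in residual Om, ∀ S U : Finset ℤ, Disjoint S U → x ∈ W univ S U := by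
    rw [eventually_countable_forall]
    intro S
    rw [eventually_countable_forall]
    intro U
    by_cases hd : Disjoint S U
    · filter_upwards [residual_of_dense_open (isOpen_W isOpen_univ S U)
        (dense_W isOpen_univ univ_nonempty hd)] with x hx _
      exact hx
    · exact Eventually.of_forall fun x h => absurd h hd
  have e4 : ∀ᶠ x in residual Om, ∀ i : I, ∀ S U : Finset ℤ, (O i).Nonempty → Disjoint S U →
      x ∈ W (O i) S U := by
    rw [eventually_countable_forall]
    intro i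
    rw [eventually_countable_forall]
    intro S
    rw [eventually_countable_forall]
    intro U
    by_cases hne : (O i).Nonempty
    · by_cases hd : Disjoint S U
      · filter_upwards [residual_of_dense_open (isOpen_W (hO1 i) S U)
          (dense_W (hO1 i) hne hd)] with x hx _ _
        exact hx
      · exact Eventually.of_forall fun x _ h => absurd h hd
    · exact Eventually.of_forall fun x h => absurd h hne
  obtain ⟨x, h1, h2, h3, h4⟩ :=
    (dense_of_mem_residual (e1.and (e2.and (e3.and e4)))).nonempty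
  have hx : Free x ∧ Ext x := by
    refine ⟨h2, fun S U hd => ?_⟩
    obtain ⟨v, hv1, hv2, _, hv3, hv4⟩ := h3 S U hd
    exact ⟨v, hv1, hv2, hv3, hv4⟩
  refine ⟨⟨x, hx⟩, fun S U hd m => ?_⟩
  have hmem : ∀ (n : ℤ) (i : I), sh n x ∈ A i ↔ c (act n ⟨x, hx⟩) = i := by
    intro n i
    constructor
    · rintro ⟨y, hy, hyx⟩
      have : y = act n ⟨x, hx⟩ := Subtype.ext hyx
      rw [← this]
      exact hy
    · intro h
      exact ⟨act n ⟨x, hx⟩, h, rfl⟩
  have hm : sh m x ∈ O (c (act m ⟨x, hx⟩)) := (h1 _ m).1 ((hmem m _).2 rfl)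
  obtain ⟨v, hv1, hv2, hv, hv3, hv4⟩ := h4 (c (act m ⟨x, hx⟩)) S U ⟨_, hm⟩ hd
  exact ⟨v, hv1, hv2, (hmem v _).1 ((h1 _ v).2 hv), hv3, hv4⟩

end Pool.Agent.R732.Dist
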