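import Pool.Agent.R732.Dist.Three
import Pool.Agent.R732.Dist.Generic

/-!
# Finite distinguishing number, uncountable Borel distinguishing number
-/

set_option autoImplicit false

open Set

namespace Pool.Agent.R732.Dist

/-- An automorphism of one orbit extends to the whole graph by the identity. -/
theorem extend_iso (x : Y) (f : ℤ ≃ ℤ) (hf : ∀ m n, R x.1 (f m) (f n) ↔ R x.1 m n) :
    ∃ φ : G ≃g G, (∀ n, φ (act n x) = act (f n) x) ∧ ∀ y, (¬ ∃ n, y = act n x) → φ y = y := by
  classical
  have hinj : Function.Injective (fun n : ℤ => act n x) := fun m n h => act_inj h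
  let g : ℤ ≃ range (fun n : ℤ => act n x) := Equiv.ofInjective _ hinj
  let ψ : Equiv.Perm Y := Equiv.Perm.extendDomain f g
  have h1 : ∀ n, ψ (act n x) = act (f n) x := by
    intro n
    have := Equiv.Perm.extendDomain_apply_image f g n
    exact this
  have h2 : ∀ y, (¬ ∃ n, y = act n x) → ψ y = y := by
    intro y hy
    apply Equiv.Perm.extendDomain_apply_not_subtype
    rintro ⟨n, hn⟩
    exact hy ⟨n, hn.symm⟩
  refine ⟨⟨ψ, ?_⟩, h1, h2⟩
  intro y z
  by_cases hy : ∃ n, y = act n x
  · obtain ⟨m, rfl⟩ := hy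
    by_cases hz : ∃ n, z = act n x
    · obtain ⟨n, rfl⟩ := hz
      rw [h1, h1, adj_act, adj_act]
      exact hf m n
    · rw [h1, h2 z hz]
      constructor <;> intro h <;> exfalso <;> obtain ⟨a, ha⟩ := adj_same h <;>
        exact hz ⟨_, by rw [ha, act_act]⟩
  · rw [h2 y hy]
    by_cases hz : ∃ n, z = act n x
    · obtain ⟨n, rfl⟩ := hz
      rw [h1]
      constructor <;> intro h <;> exfalso <;> obtain ⟨a, ha⟩ := adj_same h.symm <;>
        exact hy ⟨_, by rw [ha, act_act]⟩
    · rw [h2 z hz]

/-- No Borel colouring with countably many colours is distinguishing. -/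
theorem not_distinguishing {I : Type} [Countable I] [MeasurableSpace I]
    [MeasurableSingletonClass I] {c : Y → I} (hc : Measurable c) : ¬ Distinguishing G c := by
  intro hD
  obtain ⟨x, hx⟩ := generic hc
  obtain ⟨v, hv1, _, hv2, _, _⟩ := hx {0} ∅ (Finset.disjoint_empty_right _) 0
  have hv0 : v ≠ 0 := fun h => hv1 (by simp [h])
  obtain ⟨f, hf0, hf1, hf2⟩ := back_forth (R := R x.1) (k := fun n : ℤ => c (act n x))
    (fun a b h => R_symm h) (fun a => R_irrefl _ a) hx (a := 0) (b := v) hv2.symm
  obtain ⟨φ, h1, h2⟩ := extend_iso x f hf1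
  have hφ : ∀ y, c (φ y) = c y := by
    intro y
    by_cases hy : ∃ n, y = act n x
    · obtain ⟨n, rfl⟩ := hy
      rw [h1]
      exact hf2 n
    · rw [h2 y hy]
  have h3 := hD φ hφ (act 0 x)
  rw [h1, hf0] at h3
  exact hv0 (act_inj h3)

theorem distNumber_lt : distNumber G < Cardinal.aleph0 := by
  obtain ⟨c, hc⟩ := dist_three
  have h : distNumber G ≤ Cardinal.mk (Fin 3) := csInf_le' ⟨Fin 3, c, hc, rfl⟩
  exact lt_of_le_of_lt h (Cardinal.lt_aleph0_of_finite _)

theorem mk_of_not_countable {I : Type} [MeasurableSpace I] [StandardBorelSpace I]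
    (h : ¬ Countable I) : Cardinal.mk I = Cardinal.continuum := by
  have e := (PolishSpace.measurableEquivNatBoolOfNotCountable h).toEquiv
  rw [Cardinal.mk_congr e]
  simp

theorem borelDistNumber_eq : borelDistNumber G = Cardinal.continuum := by
  have hY : ¬ Countable Y := by
    intro h
    exact not_distinguishing (c := (id : Y → Y)) measurable_id fun φ h x => h x
  have hmem : Cardinal.continuum ∈ {κ | ∃ (I : Type) (_ : MeasurableSpace I)
      (_ : StandardBorelSpace I) (c : Y → I), Measurable c ∧ Distinguishing G c ∧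
        Cardinal.mk I = κ} :=
    ⟨Y, inferInstance, inferInstance, id, measurable_id, fun φ h x => h x,
      mk_of_not_countable hY⟩
  apply le_antisymm
  · exact csInf_le' hmem
  · refine le_csInf ⟨_, hmem⟩ ?_
    rintro κ ⟨I, i1, i2, c, hc, hD, rfl⟩
    have hI : ¬ Countable I := by
      intro h
      exact not_distinguishing hc hD
    rw [mk_of_not_countable hI]

end Pool.Agent.R732.Dist
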