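import Pool.Agent.R732.Dist.Defs

/-!
# An induced ray that separates all other vertices
-/

set_option autoImplicit false

open Set

namespace Pool.Agent.R732.Dist

theorem ray_step {x : Om} (h : Ext x) (e : ℕ → ℤ × ℤ) (l : List ℤ) (hl : l.Nodup) (n : ℕ) :
    ∃ p : ℤ, p ∉ l ∧ (∀ a ∈ l.head?, R x p a) ∧ (∀ a ∈ l.tail, ¬ R x p a) ∧
      ((e n).1 ∉ l → (e n).2 ∉ l → (e n).1 ≠ (e n).2 → R x p (e n).1 ∧ ¬ R x p (e n).2) := by
  classical
  let C : Prop := (e n).1 ∉ l ∧ (e n).2 ∉ l ∧ (e n).1 ≠ (e n).2
  let S : Finset ℤ := l.head?.toFinset ∪ (if C then {(e n).1} else ∅)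
  let U : Finset ℤ := l.tail.toFinset ∪ (if C then {(e n).2} else ∅)
  have hhead : ∀ a, a ∈ l.head? → a ∈ l ∧ a ∉ l.tail := by
    intro a ha
    cases l with
    | nil => simp at ha
    | cons b t =>
      simp only [List.head?_cons, Option.mem_def, Option.some.injEq] at ha
      subst ha
      exact ⟨List.mem_cons_self, by simpa using (List.nodup_cons.1 hl).1⟩
  have hd : Disjoint S U := by
    rw [Finset.disjoint_left]
    intro a ha hb
    simp only [S, U, Finset.mem_union, Option.mem_toFinset, List.mem_toFinset] at ha hb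
    by_cases hC : C
    · simp only [if_pos hC, Finset.mem_singleton] at ha hb
      rcases ha with ha | ha <;> rcases hb with hb | hb
      · exact (hhead a ha).2 hb
      · rw [hb] at ha
        exact hC.2.1 (hhead _ ha).1
      · rw [ha] at hb
        exact hC.1 (List.mem_of_mem_tail hb)
      · exact hC.2.2 (ha.symm.trans hb)
    · simp only [if_neg hC, Finset.notMem_empty, or_false] at ha hb
      exact (hhead a ha).2 hb
  obtain ⟨p, h1, h2, h3, h4⟩ := h S U hd
  refine ⟨p, ?_, ?_, ?_, ?_⟩
  · intro hp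
    cases l with
    | nil => simp at hp
    | cons b t =>
      rcases List.mem_cons.1 hp with rfl | hp
      · apply h1
        simp [S]
      · apply h2
        simp [U, hp]
  · intro a ha
    apply h3
    exact Finset.mem_union_left _ (Option.mem_toFinset.2 ha)
  · intro a ha
    apply h4
    exact Finset.mem_union_left _ (List.mem_toFinset.2 ha)
  · intro c1 c2 c3
    have hC : C := ⟨c1, c2, c3⟩
    refine ⟨h3 _ ?_, h4 _ ?_⟩
    · simp only [S, if_pos hC]
      exact Finset.mem_union_right _ (Finset.mem_singleton_self _)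
    · simp only [U, if_pos hC]
      exact Finset.mem_union_right _ (Finset.mem_singleton_self _)

theorem exists_ray {x : Om} (h : Ext x) : ∃ P : ℕ → ℤ, Function.Injective P ∧
    (∀ m n, m < n → (R x (P n) (P m) ↔ n = m + 1)) ∧
    ∀ v w, v ∉ range P → w ∉ range P → v ≠ w → ∃ n, R x (P n) v ∧ ¬ R x (P n) w := by
  classical
  let e : ℕ → ℤ × ℤ := fun n => (Denumerable.eqv (ℤ × ℤ)).symm n
  let ch : List ℤ → ℕ → ℤ := fun l n =>
    if hl : l.Nodup then (ray_step h e l hl n).choose else 0
  let hist : ℕ → List ℤ := fun n => Nat.rec [] (fun n l => ch l n :: l) n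
  have hh : ∀ n, hist (n + 1) = ch (hist n) n :: hist n := fun n => rfl
  have hnd : ∀ n, (hist n).Nodup := by
    intro n
    induction n with
    | zero => exact List.nodup_nil
    | succ n ih =>
      rw [hh, List.nodup_cons]
      refine ⟨?_, ih⟩
      simp only [ch, dif_pos ih]
      exact (ray_step h e _ ih n).choose_spec.1
  let P : ℕ → ℤ := fun n => ch (hist n) n
  have hspec : ∀ n, P n ∉ hist n ∧ (∀ a ∈ (hist n).head?, R x (P n) a) ∧
      (∀ a ∈ (hist n).tail, ¬ R x (P n) a) ∧
      ((e n).1 ∉ hist n → (e n).2 ∉ hist n → (e n).1 ≠ (e n).2 →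
        R x (P n) (e n).1 ∧ ¬ R x (P n) (e n).2) := by
    intro n
    simp only [P, ch, dif_pos (hnd n)]
    exact (ray_step h e _ (hnd n) n).choose_spec
  have hmem : ∀ n a, a ∈ hist n ↔ ∃ m, m < n ∧ P m = a := by
    intro n
    induction n with
    | zero => intro a; simp [hist]
    | succ n ih =>
      intro a
      rw [hh, List.mem_cons, ih]
      constructor
      · rintro (rfl | ⟨m, hm, rfl⟩)
        · exact ⟨n, Nat.lt_succ_self n, rfl⟩
        · exact ⟨m, Nat.lt_succ_of_lt hm, rfl⟩
      · rintro ⟨m, hm, rfl⟩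
        rcases Nat.lt_succ_iff_lt_or_eq.1 hm with hm | rfl
        · exact Or.inr ⟨m, hm, rfl⟩
        · exact Or.inl rfl
  have hne : ∀ m n, m < n → P n ≠ P m := by
    intro m n hmn heq
    apply (hspec n).1
    rw [heq, hmem]
    exact ⟨m, hmn, rfl⟩
  refine ⟨P, ?_, ?_, ?_⟩
  · intro m n hmn
    rcases lt_trichotomy m n with hlt | rfl | hlt
    · exact absurd hmn.symm (hne m n hlt)
    · rfl
    · exact absurd hmn (hne n m hlt)
  · intro m n hmn
    obtain ⟨k, rfl⟩ : ∃ k, n = k + 1 := ⟨n - 1, by omega⟩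
    obtain ⟨_, h2, h3, _⟩ := hspec (k + 1)
    rw [hh] at h2 h3
    by_cases hk : m = k
    · subst hk
      refine ⟨fun _ => rfl, fun _ => h2 _ ?_⟩
      simp [P]
    · constructor
      · intro hR
        exfalso
        apply h3 (P m) _ hR
        rw [List.tail_cons, hmem]
        exact ⟨m, by omega, rfl⟩
      · intro hk2
        exact absurd (by omega) hk
  · intro v w hv hw hvw
    let n : ℕ := Denumerable.eqv (ℤ × ℤ) (v, w)
    have hn : e n = (v, w) := by simp [e, n]
    refine ⟨n, ?_⟩
    have h4 := (hspec n).2.2.2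
    rw [hn] at h4
    refine h4 ?_ ?_ hvw
    · intro hc
      obtain ⟨m, _, hm⟩ := (hmem n _).1 hc
      exact hv ⟨m, hm⟩
    · intro hc
      obtain ⟨m, _, hm⟩ := (hmem n _).1 hc
      exact hw ⟨m, hm⟩

/-- A bijection of `ℕ` preserving the ray is the identity. -/
theorem ray_rigid {σ : ℕ → ℕ} (hinj : Function.Injective σ) (hsur : Function.Surjective σ)
    (hadj : ∀ m n, (σ m = σ n + 1 ∨ σ n = σ m + 1) ↔ (m = n + 1 ∨ n = m + 1)) :
    ∀ n, σ n = n := by
  have h0 : σ 0 = 0 := by
    by_contra hne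
    obtain ⟨a, ha⟩ := hsur (σ 0 + 1)
    obtain ⟨b, hb⟩ := hsur (σ 0 - 1)
    have ha2 := (hadj a 0).1 (Or.inl ha)
    have hb2 := (hadj b 0).1 (Or.inr (by omega))
    have hab : a = b := by omega
    subst hab
    omega
  intro n
  induction n using Nat.strong_induction_on with
  | _ n ih =>
    rcases Nat.eq_zero_or_pos n with rfl | hn
    · exact h0
    · obtain ⟨k, rfl⟩ : ∃ k, n = k + 1 := ⟨n - 1, by omega⟩
      have h1 := ih k (by omega)
      have h2 := (hadj (k + 1) k).2 (Or.inl rfl)
      rw [h1] at h2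
      rcases h2 with h2 | h2
      · exact h2
      · exfalso
        rcases Nat.eq_zero_or_pos k with rfl | hk
        · omega
        · have h3 := ih (k - 1) (by omega)
          have h4 : σ (k + 1) = σ (k - 1) := by omega
          have := hinj h4
          omega

end Pool.Agent.R732.Dist
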