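import Pool.Agent.R732.Dist.Ray

/-!
# A distinguishing colouring with three colours
-/

set_option autoImplicit false

open Set

namespace Pool.Agent.R732.Dist

/-- Lying on one orbit. -/
def orbitSetoid : Setoid Y where
  r y z := ∃ n : ℤ, z = act n y
  iseqv := {
    refl := fun y => ⟨0, (act_zero y).symm⟩
    symm := by
      rintro y z ⟨n, rfl⟩
      refine ⟨-n, ?_⟩
      rw [act_act]
      have e : -n + n = (0 : ℤ) := by ring
      rw [e, act_zero]
    trans := by
      rintro y z w ⟨n, rfl⟩ ⟨m, rfl⟩
      exact ⟨m + n, act_act m n y⟩ }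

/-- The representative of the orbit. -/
noncomputable def rep (y : Y) : Y := (Quotient.mk orbitSetoid y).out

theorem rep_act (n : ℤ) (y : Y) : rep (act n y) = rep y := by
  unfold rep
  have : Quotient.mk orbitSetoid (act n y) = Quotient.mk orbitSetoid y :=
    Quotient.sound (s := orbitSetoid) (orbitSetoid.symm ⟨n, rfl⟩)
  rw [this]

theorem exists_pos (y : Y) : ∃ n : ℤ, y = act n (rep y) :=
  Quotient.mk_out (s := orbitSetoid) y

theorem rep_rep (y : Y) : rep (rep y) = rep y := by
  obtain ⟨n, hn⟩ := exists_pos y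
  have := rep_act n (rep y)
  rw [← hn] at this
  exact this.symm

theorem adj_same {y z : Y} (h : G.Adj y z) : ∃ n : ℤ, z = act n y := by
  obtain ⟨n, hn, _⟩ := h
  exact ⟨n, hn⟩

theorem iso_orbit (φ : G ≃g G) {z z' : Y} {k : ℤ} (h : φ z = act k z') (n : ℤ) :
    ∃ m : ℤ, φ (act n z) = act m z' := by
  obtain ⟨v, _, _, hv, _⟩ := z.2.2 {0, n} ∅ (Finset.disjoint_empty_right _)
  have h0 : G.Adj (act v z) (act 0 z) := (adj_act z v 0).2 (hv 0 (by simp))
  have h1 : G.Adj (act v z) (act n z) := (adj_act z v n).2 (hv n (by simp))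
  rw [act_zero] at h0
  obtain ⟨a, ha⟩ := adj_same (φ.map_adj_iff.2 h0).symm
  obtain ⟨b, hb⟩ := adj_same (φ.map_adj_iff.2 h1)
  refine ⟨b + (a + k), ?_⟩
  rw [hb, ha, h, act_act, act_act, add_assoc]

/-- Three colours suffice. -/
theorem dist_three : ∃ c : Y → Fin 3, Distinguishing G c := by
  classical
  choose P hPinj hPadj hPsep using fun y : Y => exists_ray y.2.2
  choose pos hpos using exists_pos
  let enc : ℕ → ℤ × ℕ := fun n => (Denumerable.eqv (ℤ × ℕ)).symm n
  let col : Y → ℤ → Fin 3 := fun z k =>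
    if h : ∃ m, P z m = k then (if z.1 (enc h.choose) = true then 1 else 2) else 0
  let c : Y → Fin 3 := fun y => col (rep y) (pos y)
  have hposu : ∀ (z : Y) (k : ℤ), rep z = z → pos (act k z) = k := by
    intro z k hz
    have h1 := hpos (act k z)
    rw [rep_act, hz] at h1
    exact (act_inj h1).symm
  have hc : ∀ (z : Y) (k : ℤ), rep z = z → c (act k z) = col z k := by
    intro z k hz
    simp only [c]
    rw [rep_act, hz, hposu z k hz]
  have hcolP : ∀ (z : Y) (m : ℕ), col z (P z m) = if z.1 (enc m) = true then 1 else 2 := by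
    intro z m
    have h : ∃ m', P z m' = P z m := ⟨m, rfl⟩
    have h2 : h.choose = m := hPinj z h.choose_spec
    simp only [col, dif_pos h, h2]
  have hcol0 : ∀ (z : Y) (k : ℤ), k ∉ range (P z) → col z k = 0 := by
    intro z k hk
    have h : ¬ ∃ m, P z m = k := fun ⟨m, hm⟩ => hk ⟨m, hm⟩
    simp only [col, dif_neg h]
  have hcolne : ∀ (z : Y) (k : ℤ), col z k ≠ 0 ↔ k ∈ range (P z) := by
    intro z k
    constructor
    · intro h
      by_contra hk
      exact h (hcol0 z k hk)
    · rintro ⟨m, rfl⟩
      rw [hcolP]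
      split_ifs <;> decide
  refine ⟨c, fun φ hφ => ?_⟩
  have main : ∀ z : Y, rep z = z → ∀ k : ℤ, φ (act k z) = act k z := by
    intro z hz
    let z' := rep (φ z)
    have hz' : rep z' = z' := rep_rep _
    have hφz : φ z = act (pos (φ z)) z' := hpos (φ z)
    have hτ := iso_orbit φ hφz
    choose τ hτ using hτ
    have hsymm : φ.symm z' = act (-(pos (φ z))) z ∨ ∃ k, φ.symm z' = act k z := by
      right
      have h1 : φ.symm (φ z) = z := φ.symm_apply_apply z
      have h2 : φ.symm (act (pos (φ z)) z') = act 0 z := by rw [← hφz, h1, act_zero]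
      obtain ⟨m, hm⟩ := iso_orbit φ.symm h2 (-(pos (φ z)))
      rw [act_act] at hm
      have e : -(pos (φ z)) + pos (φ z) = (0 : ℤ) := by ring
      rw [e, act_zero] at hm
      exact ⟨m, hm⟩
    obtain ⟨k0, hk0⟩ : ∃ k, φ.symm z' = act k z := by
      rcases hsymm with h | h
      · exact ⟨_, h⟩
      · exact h
    have hτ' := iso_orbit φ.symm hk0
    choose τ' hτ' using hτ'
    have inv1 : ∀ n, τ (τ' n) = n := by
      intro n
      have h1 := hτ (τ' n)
      rw [← hτ' n, φ.apply_symm_apply] at h1
      exact (act_inj h1).symm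
    have hcτ : ∀ n, col z' (τ n) = col z n := by
      intro n
      rw [← hc z' (τ n) hz', ← hc z n hz, ← hτ n]
      exact hφ _
    have hR : ∀ m n, R z'.1 (τ m) (τ n) ↔ R z.1 m n := by
      intro m n
      rw [← adj_act, ← adj_act, ← hτ m, ← hτ n]
      exact φ.map_adj_iff
    have hinjτ : Function.Injective τ := by
      intro m n hmn
      have h1 := hτ m
      rw [hmn, ← hτ n] at h1
      exact act_inj (φ.injective h1)
    have hσ : ∀ m, ∃ m', P z' m' = τ (P z m) := by
      intro m
      have : τ (P z m) ∈ range (P z') := by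
        rw [← hcolne, hcτ, hcolne]
        exact ⟨m, rfl⟩
      exact this
    choose σ hσ using hσ
    have hσinj : Function.Injective σ := by
      intro m n hmn
      have h1 := hσ m
      rw [hmn, hσ n] at h1
      exact (hPinj z (hinjτ h1)).symm
    have hσsur : Function.Surjective σ := by
      intro m'
      have : τ' (P z' m') ∈ range (P z) := by
        rw [← hcolne, ← hcτ, inv1, hcolne]
        exact ⟨m', rfl⟩
      obtain ⟨m, hm⟩ := this
      refine ⟨m, ?_⟩
      apply hPinj z'
      rw [hσ, hm, inv1]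
    have hadj : ∀ (w : Y) (m n : ℕ), R w.1 (P w m) (P w n) ↔ (m = n + 1 ∨ n = m + 1) := by
      intro w m n
      rcases lt_trichotomy m n with h | rfl | h
      · rw [R_comm, hPadj w m n h]
        omega
      · constructor
        · intro h; exact absurd h (R_irrefl _ _)
        · intro h; omega
      · rw [hPadj w n m h]
        omega
    have hid := ray_rigid hσinj hσsur (fun m n => by
      rw [← hadj z' (σ m) (σ n), ← hadj z m n, hσ, hσ, hR])
    have hzz : z = z' := by
      apply Subtype.ext
      funext p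
      obtain ⟨m, rfl⟩ : ∃ m, enc m = p := ⟨Denumerable.eqv (ℤ × ℕ) p, by simp [enc]⟩
      have h1 := hcτ (P z m)
      rw [← hσ m, hid m, hcolP, hcolP] at h1
      cases hb : z.1 (enc m) <;> cases hb' : z'.1 (enc m) <;> simp [hb, hb'] at h1 ⊢
    rw [← hzz] at hτ hR hcτ hσ
    intro k
    rw [hτ k]
    congr 1
    by_cases hk : k ∈ range (P z)
    · obtain ⟨m, rfl⟩ := hk
      rw [← hσ m, hid m]
    · have hk' : τ k ∉ range (P z) := by
        rw [← hcolne, hcτ, hcolne]
        exact hk
      by_contra hne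
      obtain ⟨n, h1, h2⟩ := hPsep z k (τ k) hk hk' (Ne.symm hne)
      apply h2
      have h3 : τ (P z n) = P z n := by rw [← hσ n, hid n]
      rw [← h3, hR]
      exact h1
  intro y
  have h1 := main (rep y) (rep_rep y) (pos y)
  rw [← hpos y] at h1
  exact h1

end Pool.Agent.R732.Dist
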